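import Pool.Agent.Run7.h222.SU.Stm

set_option autoImplicit false

/-! # Project SU (helper222), piece SELA: selection and ordering, all entries in the open upper half
plane -/

namespace Run7.h749.SU

open Run7.h222.SU Pool.Agent.H16.SUn

/-- crossing of the window sums -/
theorem cross (D : ℕ → ℝ) (h : ℕ) (hp : 0 < h) (h0 : D 0 + D h = 0) :
    ∃ k, k < h ∧ D k * D (k + 1) ≤ 0 := by
  by_contra hcon
  push Not at hcon
  have h1 : ∀ k, k ≤ h → 1 ≤ k → 0 < D 0 * D k := by
    intro k
    induction k with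
    | zero => intro _ h2; omega
    | succ k ih =>
      intro hk _
      have h3 := hcon k (by omega)
      rcases Nat.eq_zero_or_pos k with h4 | h4
      · subst h4
        simpa using h3
      · have h5 := ih (by omega) h4
        have h6 : 0 < (D 0 * D k) * (D k * D (k + 1)) := mul_pos h5 h3
        have h7 : (D 0 * D k) * (D k * D (k + 1)) = (D 0 * D (k + 1)) * (D k) ^ 2 := by ring
        rw [h7] at h6
        by_contra h8
        push Not at h8
        have h9 : (D 0 * D (k + 1)) * (D k) ^ 2 ≤ 0 :=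
          mul_nonpos_of_nonpos_of_nonneg h8 (sq_nonneg _)
        linarith
  have h2 := h1 h le_rfl hp
  have h3 : D h = -D 0 := by linarith
  rw [h3] at h2
  nlinarith [sq_nonneg (D 0)]

/-- the sign condition of `S_W` -/
theorem sign_cond (φ γ η τ : ℝ) (hφ : 0 < φ ∧ φ < Real.pi) (hγ : 0 < γ ∧ γ < Real.pi)
    (hη : 0 < η ∧ η < Real.pi) (h : (φ - τ) * (γ - τ) ≤ 0) :
    (Real.sin ((τ - φ) / 2) * Real.sin ((φ + η) / 2)) *
      (Real.sin ((τ - γ) / 2) * Real.sin ((γ + η) / 2)) ≤ 0 := by
  have s1 : 0 < Real.sin ((φ + η) / 2) :=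
    Real.sin_pos_of_pos_of_lt_pi (by linarith [hφ.1, hη.1]) (by linarith [hφ.2, hη.2])
  have s2 : 0 < Real.sin ((γ + η) / 2) :=
    Real.sin_pos_of_pos_of_lt_pi (by linarith [hγ.1, hη.1]) (by linarith [hγ.2, hη.2])
  have key : Real.sin ((τ - φ) / 2) * Real.sin ((τ - γ) / 2) ≤ 0 := by
    rcases le_total φ γ with h1 | h1
    · have h2 : φ ≤ τ ∧ τ ≤ γ := by
        constructor
        · by_contra hc
          push Not at hc
          have : 0 < (φ - τ) * (γ - τ) := mul_pos (by linarith) (by linarith)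
          linarith
        · by_contra hc
          push Not at hc
          have : 0 < (τ - φ) * (τ - γ) := mul_pos (by linarith) (by linarith)
          nlinarith
      apply mul_nonpos_of_nonneg_of_nonpos
      · exact Real.sin_nonneg_of_nonneg_of_le_pi (by linarith [h2.1]) (by linarith [h2.2, hγ.2, hφ.1])
      · exact Real.sin_nonpos_of_nonpos_of_neg_pi_le (by linarith [h2.2]) (by linarith [h2.1, hγ.2, hφ.1])
    · have h2 : γ ≤ τ ∧ τ ≤ φ := by
        constructor
        · by_contra hc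
          push Not at hc
          have : 0 < (φ - τ) * (γ - τ) := mul_pos (by linarith) (by linarith)
          linarith
        · by_contra hc
          push Not at hc
          have : 0 < (τ - φ) * (τ - γ) := mul_pos (by linarith) (by linarith)
          nlinarith
      apply mul_nonpos_of_nonpos_of_nonneg
      · exact Real.sin_nonpos_of_nonpos_of_neg_pi_le (by linarith [h2.2]) (by linarith [h2.1, hφ.2, hγ.1])
      · exact Real.sin_nonneg_of_nonneg_of_le_pi (by linarith [h2.1]) (by linarith [h2.2, hφ.2, hγ.1])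
  have e : (Real.sin ((τ - φ) / 2) * Real.sin ((φ + η) / 2)) *
      (Real.sin ((τ - γ) / 2) * Real.sin ((γ + η) / 2)) =
      (Real.sin ((τ - φ) / 2) * Real.sin ((τ - γ) / 2)) *
        (Real.sin ((φ + η) / 2) * Real.sin ((γ + η) / 2)) := by ring
  rw [e]
  exact mul_nonpos_of_nonpos_of_nonneg key (mul_pos s1 s2).le

/-- extension of an injective partial map to a permutation -/
theorem extend {n : ℕ} (s : Finset (Fin n)) (F : Fin n → Fin n) (hF : Set.InjOn F s) :
    ∃ π : Equiv.Perm (Fin n), ∀ i ∈ s, π i = F i := by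
  classical
  obtain ⟨g, hg⟩ := Finset.exists_equiv_extend_of_card_eq (t := (Finset.univ : Finset (Fin n)))
    (by simp) (s := s) (f := F) (Finset.subset_univ _) hF
  refine ⟨g.trans (Equiv.subtypeUnivEquiv (fun x => Finset.mem_univ x)), fun i hi => ?_⟩
  exact hg i hi

theorem exp_sum' (s : Finset ℕ) (θ : ℕ → ℝ) :
    Complex.exp (((∑ i ∈ s, θ i : ℝ) : ℂ) * Complex.I) = ∏ i ∈ s, Complex.exp (θ i * Complex.I) := by
  rw [Complex.ofReal_sum, Finset.sum_mul, Complex.exp_sum]

theorem pp_full {n : ℕ} (z : Fin n → ℂ) : pp z n = ∏ i, z i := by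
  unfold pp
  rw [Finset.prod_range]
  exact Finset.prod_congr rfl (fun i _ => dif_pos i.2)

theorem pps {n : ℕ} (a : Fin n → ℂ) (k : ℕ) (h : k < n) : pp a (k + 1) = pp a k * a ⟨k, h⟩ := by
  unfold pp
  rw [Finset.prod_range_succ, dif_pos h]

theorem star_exp (t : ℝ) :
    star (Complex.exp ((t : ℂ) * Complex.I)) = Complex.exp (-((t : ℂ) * Complex.I)) := by
  show (starRingEnd ℂ) _ = _
  rw [← Complex.exp_conj]
  congr 1
  simp

theorem t_SELA (hW : S_W) : S_SELA := by
  intro n z hn4 hn6 hz hprod him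
  obtain ⟨j, rfl⟩ : ∃ j, n = 4 * j + 6 := ⟨(n - 6) / 4, by omega⟩
  -- angles
  let θ : ℕ → ℝ := fun i => if h : i < 4 * j + 6 then Complex.arg (z ⟨i, h⟩) else 0
  have hnorm : ∀ i, ‖z i‖ = 1 := by
    intro i
    have h1 := hz i
    have h2 : ((‖z i‖ ^ 2 : ℝ) : ℂ) = 1 := by
      rw [← h1]
      have := Complex.conj_mul' (z i)
      rw [Complex.ofReal_pow]
      exact this.symm
    have h3 : ‖z i‖ ^ 2 = 1 := by exact_mod_cast h2
    have h4 := norm_nonneg (z i)
    nlinarith
  have hexp : ∀ (i : ℕ) (h : i < 4 * j + 6), z ⟨i, h⟩ = Complex.exp (θ i * Complex.I) := by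
    intro i h
    have h1 := Complex.norm_mul_exp_arg_mul_I (z ⟨i, h⟩)
    rw [hnorm, Complex.ofReal_one, one_mul] at h1
    have h2 : θ i = Complex.arg (z ⟨i, h⟩) := dif_pos h
    rw [h2, h1]
  have hθ : ∀ i, i < 4 * j + 6 → 0 < θ i ∧ θ i < Real.pi := by
    intro i h
    have h2 : θ i = Complex.arg (z ⟨i, h⟩) := dif_pos h
    have h3 := him ⟨i, h⟩
    rw [h2]
    constructor
    · rcases (Complex.arg_nonneg_iff.2 h3.le).lt_or_eq with h4 | h4
      · exact h4
      · have := (Complex.arg_eq_zero_iff.1 h4.symm).2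
        linarith
    · rcases (Complex.arg_le_pi (z ⟨i, h⟩)).lt_or_eq with h4 | h4
      · exact h4
      · have := (Complex.arg_eq_pi_iff.1 h4).2
        linarith
  -- the total angle
  have hsum : Complex.exp (((∑ i ∈ Finset.range (4 * j + 6), θ i : ℝ) : ℂ) * Complex.I) = 1 := by
    rw [exp_sum', ← hprod, ← pp_full z]
    unfold pp
    refine Finset.prod_congr rfl (fun i hi => ?_)
    have h1 := Finset.mem_range.1 hi
    rw [dif_pos h1, hexp i h1]
  obtain ⟨m, hm⟩ := Complex.exp_eq_one_iff.1 hsum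
  have hm' : ∑ i ∈ Finset.range (4 * j + 6), θ i = 2 * (Real.pi * m) := by
    have h1 : ((∑ i ∈ Finset.range (4 * j + 6), θ i : ℝ) : ℂ) = ((2 * (Real.pi * m) : ℝ) : ℂ) := by
      apply mul_right_cancel₀ Complex.I_ne_zero
      rw [hm]
      push_cast
      ring
    exact_mod_cast h1
  -- the window
  let D : ℕ → ℝ := fun k => ∑ i ∈ Finset.range (2 * j + 3), θ (k + i) - Real.pi * m
  have hD0 : D 0 + D (2 * j + 3) = 0 := by
    have h1 : ∑ i ∈ Finset.range (2 * j + 3 + (2 * j + 3)), θ i = 2 * (Real.pi * m) := by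
      rw [← hm']
      congr 2
      omega
    rw [Finset.sum_range_add] at h1
    simp only [D, zero_add]
    linarith
  obtain ⟨k, hk, hDk⟩ := cross D (2 * j + 3) (by omega) hD0
  set T : ℝ := ∑ i ∈ Finset.range (2 * j + 2), θ (k + 1 + i) with hT
  set τ : ℝ := Real.pi * m - T with hτ
  have hDk0 : D k = θ k - τ := by
    simp only [D]
    rw [show 2 * j + 3 = (2 * j + 2) + 1 by omega, Finset.sum_range_succ', hτ, hT, add_zero]
    have : ∀ i, θ (k + (i + 1)) = θ (k + 1 + i) := fun i => by rw [show k + (i + 1) = k + 1 + i by omega]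
    simp only [this]
    ring
  have hDk1 : D (k + 1) = θ (k + (2 * j + 3)) - τ := by
    simp only [D]
    rw [show 2 * j + 3 = (2 * j + 2) + 1 by omega, Finset.sum_range_succ, hτ, hT,
      show k + 1 + (2 * j + 2) = k + (2 * j + 2 + 1) by omega]
    ring
  rw [hDk0, hDk1] at hDk
  obtain ⟨y, hy1, hy2⟩ : ∃ y, y < 4 * j + 6 ∧ (y < k ∨ k + (2 * j + 3) < y) := by
    rcases Nat.eq_zero_or_pos k with h1 | h1
    · exact ⟨4 * j + 5, by omega, Or.inr (by omega)⟩
    · exact ⟨0, by omega, Or.inl h1⟩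
  -- the permutation
  let Fn : ℕ → ℕ := fun i => if i = 2 * j + 1 then k else if i = 2 * j + 2 then y else
    if i = 2 * j + 3 then k + (2 * j + 3) else i - (2 * j + 3) + k
  have hFn : ∀ i, i < 4 * j + 6 → Fn i < 4 * j + 6 := by
    intro i hi
    simp only [Fn]
    split_ifs <;> omega
  obtain ⟨π, hπ⟩ := extend (Finset.univ.filter (fun i : Fin (4 * j + 6) => 2 * j + 1 ≤ (i : ℕ)))
    (fun i => ⟨Fn i, hFn i i.2⟩) (by
      intro a ha b hb hab
      have ha' : 2 * j + 1 ≤ (a : ℕ) := by simpa using ha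
      have hb' : 2 * j + 1 ≤ (b : ℕ) := by simpa using hb
      have h1 : Fn a = Fn b := congrArg Fin.val hab
      apply Fin.ext
      have ha2 := a.2
      have hb2 := b.2
      simp only [Fn] at h1
      split_ifs at h1 <;> omega)
  refine ⟨π, ?_⟩
  set a : Fin (4 * j + 6) → ℂ := fun i => z (π i) with ha
  have hai : ∀ (i : ℕ) (h : i < 4 * j + 6), 2 * j + 1 ≤ i →
      a ⟨i, h⟩ = Complex.exp (θ (Fn i) * Complex.I) := by
    intro i h h2
    have h3 : π ⟨i, h⟩ = ⟨Fn i, hFn i h⟩ := hπ ⟨i, h⟩ (by simpa using h2)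
    show z (π ⟨i, h⟩) = _
    rw [h3, hexp]
  have hfull : pp a (4 * j + 6) = 1 := by
    rw [pp_full, ha]
    show ∏ i, z (π i) = 1
    rw [Equiv.prod_comp π z, hprod]
  have hsplit : pp a (2 * j + 4) * Complex.exp ((T : ℂ) * Complex.I) = 1 := by
    have h1 : pp a (4 * j + 6) = pp a (2 * j + 4) *
        ∏ x ∈ Finset.range (2 * j + 2), (if h : 2 * j + 4 + x < 4 * j + 6 then a ⟨2 * j + 4 + x, h⟩ else 1) := by
      unfold pp
      rw [← Finset.prod_range_add]
      congr 2
      omega
    have h2 : ∏ x ∈ Finset.range (2 * j + 2),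
        (if h : 2 * j + 4 + x < 4 * j + 6 then a ⟨2 * j + 4 + x, h⟩ else 1) =
        Complex.exp ((T : ℂ) * Complex.I) := by
      rw [hT, exp_sum' (Finset.range (2 * j + 2)) (fun i => θ (k + 1 + i))]
      refine Finset.prod_congr rfl (fun x hx => ?_)
      have h3 := Finset.mem_range.1 hx
      rw [dif_pos (by omega : 2 * j + 4 + x < 4 * j + 6), hai _ _ (by omega)]
      have h4 : Fn (2 * j + 4 + x) = k + 1 + x := by
        simp only [Fn]
        rw [if_neg (by omega), if_neg (by omega), if_neg (by omega)]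
        omega
      rw [h4]
    rw [← hfull, h1, h2]
  have hs3 : pp a (2 * j + 4) = pp a (2 * j + 1) * a ⟨2 * j + 1, by omega⟩ * a ⟨2 * j + 2, by omega⟩ *
      a ⟨2 * j + 3, by omega⟩ := by
    rw [pps a (2 * j + 3) (by omega), pps a (2 * j + 2) (by omega), pps a (2 * j + 1) (by omega)]
  have e1 : a ⟨2 * j + 1, by omega⟩ = Complex.exp (θ k * Complex.I) := by
    rw [hai _ _ (by omega)]
    simp [Fn]
  have e2 : a ⟨2 * j + 2, by omega⟩ = Complex.exp (θ y * Complex.I) := by
    rw [hai _ _ (by omega)]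
    simp [Fn]
  have e3 : a ⟨2 * j + 3, by omega⟩ = Complex.exp (θ (k + (2 * j + 3)) * Complex.I) := by
    rw [hai _ _ (by omega)]
    simp [Fn]
  obtain ⟨w, hw0, hw1, hid⟩ := hW (θ k) (θ (k + (2 * j + 3))) (θ y) τ
    (sign_cond _ _ _ _ (hθ k (by omega)) (hθ _ (by omega)) (hθ y hy1) hDk)
  set X := pp a (2 * j + 1) with hX
  set f := Complex.exp (θ k * Complex.I) with hf
  set y' := Complex.exp (θ y * Complex.I) with hy'
  set g := Complex.exp (θ (k + (2 * j + 3)) * Complex.I) with hg
  set e := Complex.exp (((Real.pi * m : ℝ) : ℂ) * Complex.I) with he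
  have hee : e * e = 1 := by
    rw [he, ← Complex.exp_add, ← hsum, hm']
    congr 1
    push_cast
    ring
  have hf0 : f ≠ 0 := Complex.exp_ne_zero _
  have hg0 : g ≠ 0 := Complex.exp_ne_zero _
  have hy0 : y' ≠ 0 := Complex.exp_ne_zero _
  rw [hs3, e1, e2, e3] at hsplit
  have hE1 : Complex.exp (τ * Complex.I) = e * (X * f * y' * g) := by
    have h1 : Complex.exp (τ * Complex.I) * Complex.exp ((T : ℂ) * Complex.I) = e := by
      rw [he, ← Complex.exp_add, hτ]
      congr 1
      push_cast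
      ring
    have h2 : Complex.exp (τ * Complex.I) * (Complex.exp ((T : ℂ) * Complex.I) * (X * f * y' * g)) =
        e * (X * f * y' * g) := by rw [← mul_assoc, h1]
    rw [mul_comm (Complex.exp ((T : ℂ) * Complex.I)), hsplit, mul_one] at h2
    exact h2
  have hA1 : Complex.exp ((τ - θ y - θ (k + (2 * j + 3))) * Complex.I) = e * X * f := by
    have h1 : Complex.exp ((τ - θ y - θ (k + (2 * j + 3))) * Complex.I) * (y' * g) =
        Complex.exp (τ * Complex.I) := by
      rw [hy', hg, ← Complex.exp_add, ← Complex.exp_add]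
      congr 1
      ring
    apply mul_right_cancel₀ (mul_ne_zero hy0 hg0)
    rw [h1, hE1]
    ring
  have hA2 : Complex.exp ((τ - θ y - θ k) * Complex.I) = e * X * g := by
    have h1 : Complex.exp ((τ - θ y - θ k) * Complex.I) * (y' * f) =
        Complex.exp (τ * Complex.I) := by
      rw [hy', hf, ← Complex.exp_add, ← Complex.exp_add]
      congr 1
      ring
    apply mul_right_cancel₀ (mul_ne_zero hy0 hf0)
    rw [h1, hE1]
    ring
  rw [hE1, hA1, hA2] at hid
  refine ⟨j, by omega, e, w, mul_self_eq_one_iff.1 hee, hw0, hw1, ?_⟩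
  show e * star (a ⟨2 * j + 2, by omega⟩) + pp a (2 * j + 4) =
      w * (X * a ⟨2 * j + 1, by omega⟩ + e * a ⟨2 * j + 3, by omega⟩) +
      (1 - w) * (e * a ⟨2 * j + 1, by omega⟩ + X * a ⟨2 * j + 3, by omega⟩)
  rw [hs3, e1, e2, e3, hy', star_exp, ← hy']
  linear_combination e * hid - (X * f * y' * g - w * X * f - (1 - w) * X * g) * hee

end Run7.h749.SU
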